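import Pool.Agent.N65.GP.Defs

set_option autoImplicit false

/-!
# Project GP (helper65), leaf CO by helper592: the coefficients in a relation are constant
-/

namespace Pool.Agent.N592.GP

open Pool.Agent.N65.GP

/-- a holomorphic function near `c₀` with real part `log |x - c|` -/
noncomputable def Lg (x c₀ c : ℂ) : ℂ :=
  Complex.log ((x - c) / (x - c₀)) + (Real.log ‖x - c₀‖ : ℝ)

theorem slit (x c₀ c : ℂ) (h : ‖c - c₀‖ < ‖x - c₀‖) : (x - c) / (x - c₀) ∈ Complex.slitPlane := by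
  have h0 : x - c₀ ≠ 0 := by
    intro h1
    rw [h1, norm_zero] at h
    exact absurd h (not_lt.2 (norm_nonneg _))
  have h1 : (x - c) / (x - c₀) = 1 - (c - c₀) / (x - c₀) := by
    field_simp
    ring
  have h2 : ‖(c - c₀) / (x - c₀)‖ < 1 := by
    rw [norm_div, div_lt_one (norm_pos_iff.2 h0)]
    exact h
  left
  rw [h1, Complex.sub_re, Complex.one_re]
  have h3 := (Complex.re_le_norm ((c - c₀) / (x - c₀)))
  linarith

theorem Lg_diff (x c₀ : ℂ) (ε : ℝ) (hε : ε ≤ ‖x - c₀‖) :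
    DifferentiableOn ℂ (Lg x c₀) (Metric.ball c₀ ε) := by
  unfold Lg
  refine DifferentiableOn.add ?_ (differentiableOn_const _)
  refine DifferentiableOn.clog ?_ ?_
  · exact ((differentiableOn_const _).sub differentiableOn_id).div_const _
  · intro c hc
    refine slit x c₀ c ?_
    rw [← dist_eq_norm]
    exact lt_of_lt_of_le (Metric.mem_ball.1 hc) hε

theorem Lg_re (x c₀ c : ℂ) (h : ‖c - c₀‖ < ‖x - c₀‖) : (Lg x c₀ c).re = Real.log ‖x - c‖ := by
  have h0 : x - c₀ ≠ 0 := by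
    intro h1
    rw [h1, norm_zero] at h
    exact absurd h (not_lt.2 (norm_nonneg _))
  have h1 : x - c ≠ 0 := by
    intro h1
    have h2 : x = c := sub_eq_zero.1 h1
    rw [h2] at h
    exact lt_irrefl _ h
  unfold Lg
  rw [Complex.add_re, Complex.log_re, Complex.ofReal_re, norm_div,
    Real.log_div (norm_ne_zero_iff.2 h1) (norm_ne_zero_iff.2 h0)]
  ring

theorem core (hLI : S_LI) (hLC : S_LC) (hCC : S_CC) (n : ℕ) (R : ℝ) (hR : 0 < R) (D : Set ℂ)
    (hD : Dense D) (Y X : Fin n → ℂ → ℂ) (lam lam' : ℂ → Fin n → ℝ) (τ : ℝ) (Φ : ℂ → ℂ → ℂ)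
    (hY : ∀ i, DifferentiableOn ℂ (Y i) {c | R < ‖c‖})
    (hYd : ∀ i c, R < ‖c‖ → deriv (Y i) c ≠ 0)
    (hYi : ∀ c, R < ‖c‖ → Function.Injective fun i => Y i c)
    (hXY : ∀ u c, R < ‖u‖ → R < ‖c‖ → ((∃ i, u = Y i c) ↔ ∃ i, c = X i u))
    (hΦ : ∀ u, R < ‖u‖ → DifferentiableOn ℂ (Φ u) {c | R < ‖c‖})
    (hRel : ∀ u ∈ D, ∀ c ∈ D, R < ‖u‖ → R < ‖c‖ → (¬ ∃ i, u = Y i c) →
      (Φ u c).re = ∑ i, lam c i * Real.log ‖Y i c - u‖ + ∑ i, lam' u i * Real.log ‖X i u - c‖ + τ) :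
    ∃ β : Fin n → ℝ, ∀ c ∈ D, R < ‖c‖ → lam c = β := by
  refine hCC (Fin n → ℝ) R D lam hD hR ?_
  intro c₀ hc₀
  obtain ⟨u, hu, hdet⟩ := hLI n (fun i => Y i c₀) (fun i => deriv (Y i) c₀) R D hD (hYi c₀ hc₀)
    (fun i => hYd i c₀ hc₀)
  -- the radius
  have hpos : ∀ j i, 0 < ‖X i (u j) - c₀‖ := by
    intro j i
    rw [norm_pos_iff]
    intro h
    have h1 : ∃ i, c₀ = X i (u j) := ⟨i, (sub_eq_zero.1 h).symm⟩
    obtain ⟨i', hi'⟩ := (hXY (u j) c₀ (hu j).2.1 hc₀).2 h1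
    exact (hu j).2.2 i' hi'.symm
  obtain ⟨ε, hε, hεR, hεX⟩ : ∃ ε : ℝ, 0 < ε ∧ ε ≤ ‖c₀‖ - R ∧ ∀ j i, ε ≤ ‖X i (u j) - c₀‖ := by
    have h1 : ∀ᶠ ε : ℝ in nhdsWithin 0 (Set.Ioi 0), ε ≤ ‖c₀‖ - R ∧
        ∀ j i, ε ≤ ‖X i (u j) - c₀‖ := by
      refine Filter.Eventually.and ?_ ?_
      · exact (Filter.Eventually.filter_mono nhdsWithin_le_nhds
          (eventually_le_nhds (sub_pos.2 hc₀)))
      · refine Filter.eventually_all.2 fun j => Filter.eventually_all.2 fun i => ?_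
        exact (Filter.Eventually.filter_mono nhdsWithin_le_nhds
          (eventually_le_nhds (hpos j i)))
    obtain ⟨ε, h2, h3⟩ := (h1.and self_mem_nhdsWithin).exists
    exact ⟨ε, h3, h2.1, h2.2⟩
  have hball : Metric.ball c₀ ε ⊆ {c | R < ‖c‖} := by
    intro c hc
    have h1 : ‖c - c₀‖ < ε := by
      rw [← dist_eq_norm]
      exact Metric.mem_ball.1 hc
    have h2 : ‖c₀‖ ≤ ‖c‖ + ‖c - c₀‖ := by
      have h3 : c₀ = c - (c - c₀) := by ring
      calc ‖c₀‖ = ‖c - (c - c₀)‖ := by rw [← h3]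
        _ ≤ _ := norm_sub_le _ _
    show R < ‖c‖
    linarith
  have hP : ∀ j, DifferentiableOn ℂ (fun c => Φ (u j) c -
      ∑ i, (lam' (u j) i : ℂ) * Lg (X i (u j)) c₀ c - (τ : ℂ)) (Metric.ball c₀ ε) := by
    intro j
    refine DifferentiableOn.sub (DifferentiableOn.sub ((hΦ (u j) (hu j).2.1).mono hball) ?_)
      (differentiableOn_const _)
    refine DifferentiableOn.fun_sum fun i _ => ?_
    exact (Lg_diff (X i (u j)) c₀ ε (hεX j i)).const_mul _
  have hre : ∀ c ∈ D, c ∈ Metric.ball c₀ ε → ∀ j, (Φ (u j) c -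
      ∑ i, (lam' (u j) i : ℂ) * Lg (X i (u j)) c₀ c - (τ : ℂ)).re =
      ∑ i, lam c i * Real.log ‖Y i c - u j‖ := by
    intro c hcD hc j
    have hcR : R < ‖c‖ := hball hc
    have h1 : ‖c - c₀‖ < ε := by
      rw [← dist_eq_norm]
      exact Metric.mem_ball.1 hc
    have h2 : ¬ ∃ i, u j = Y i c := by
      intro h3
      obtain ⟨i, hi⟩ := (hXY (u j) c (hu j).2.1 hcR).1 h3
      have h4 := hεX j i
      rw [← hi] at h4
      linarith
    have h5 := hRel (u j) (hu j).1 c hcD (hu j).2.1 hcR h2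
    have h6 : (∑ i, (lam' (u j) i : ℂ) * Lg (X i (u j)) c₀ c).re =
        ∑ i, lam' (u j) i * Real.log ‖X i (u j) - c‖ := by
      rw [Complex.re_sum]
      refine Finset.sum_congr rfl fun i _ => ?_
      rw [Complex.re_ofReal_mul, Lg_re _ _ _ (lt_of_lt_of_le h1 (hεX j i))]
    rw [Complex.sub_re, Complex.sub_re, h6, h5, Complex.ofReal_re]
    ring
  exact hLC n c₀ ε D Y
    (fun j c => Φ (u j) c - ∑ i, (lam' (u j) i : ℂ) * Lg (X i (u j)) c₀ c - (τ : ℂ)) u lam hε hD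
    (fun i => (hY i).mono hball) hP (fun i j => (hu j).2.2 i) hre hdet

theorem phi_re {d : ℕ} (γ : Fin d → Loop) (s : Fin d → ℝ) (m c : ℂ) :
    (∑ l, (s l : ℂ) * (-Complex.I * (γ l).int (ker m c))).re =
      ∑ l, s l * ((γ l).int (ker m c)).im := by
  rw [Complex.re_sum]
  refine Finset.sum_congr rfl fun l _ => ?_
  rw [Complex.re_ofReal_mul]
  congr 1
  simp

theorem t_CO (hH : S_H) (hHD : S_HD) (hLI : S_LI) (hLC : S_LC) (hCC : S_CC) : S_CO := by
  intro k hk C R b d γ s lam lam' τ hB hRel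
  have hreg : ∀ m c, R < ‖m‖ → R < ‖c‖ → ∀ l, ((γ l).int (ker m c)).im = (γ l).reg m c := by
    intro m c hm hc l
    exact (hH (γ l) m c (fun t => (hB l t).2.trans hm) (fun t => (hB l t).1.trans hc)).symm
  have hXY : ∀ m c, R < ‖m‖ → R < ‖c‖ → ((∃ i, m = b.yb i c) ↔ ∃ i, c = b.xb i m) := by
    intro m c hm hc
    rw [← b.rootY c hc, ← b.rootX m hm]
  have h1 := core hLI hLC hCC C.n R b.pos (k : Set ℂ) hk b.yb b.xb lam lam' τ
    (fun m c => ∑ l, (s l : ℂ) * (-Complex.I * (γ l).int (ker m c))) b.diffY b.derivY b.injY hXY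
    (fun m hm => by
      refine DifferentiableOn.fun_sum fun l _ => ?_
      exact (((hHD (γ l) R (hB l)).1 m hm).const_mul _).const_mul _)
    (fun m hm c hc hm1 hc1 hn => by
      have h2 : C.F c m ≠ 0 := fun h => hn ((b.rootY c hc1 m).1 h)
      have h3 := hRel m hm c hc hm1 hc1 h2
      show (∑ l, (s l : ℂ) * (-Complex.I * (γ l).int (ker m c))).re = _
      rw [phi_re, ← h3]
      exact Finset.sum_congr rfl fun l _ => by rw [hreg m c hm1 hc1 l])
  have h1' := core hLI hLC hCC C.n R b.pos (k : Set ℂ) hk b.xb b.yb lam' lam τ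
    (fun c m => ∑ l, (s l : ℂ) * (-Complex.I * (γ l).int (ker m c))) b.diffX b.derivX b.injX
    (fun c m hc hm => (hXY m c hm hc).symm)
    (fun c hc => by
      refine DifferentiableOn.fun_sum fun l _ => ?_
      exact (((hHD (γ l) R (hB l)).2.1 c hc).const_mul _).const_mul _)
    (fun c hc m hm hc1 hm1 hn => by
      have h2 : C.F c m ≠ 0 := fun h => hn ((b.rootX m hm1 c).1 h)
      have h3 := hRel m hm c hc hm1 hc1 h2
      show (∑ l, (s l : ℂ) * (-Complex.I * (γ l).int (ker m c))).re = _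
      rw [phi_re, add_comm (∑ i, lam' m i * Real.log ‖b.xb i m - c‖), ← h3]
      exact Finset.sum_congr rfl fun l _ => by rw [hreg m c hm1 hc1 l])
  obtain ⟨β, hβ⟩ := h1
  obtain ⟨β', hβ'⟩ := h1'
  exact ⟨β, β', hβ, hβ'⟩

end Pool.Agent.N592.GP
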